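import Pool.Agent.W787.KG.Defs

/-!
# Project KG, part GK: the heat kernel acting on a cosine transform
-/

open MeasureTheory Set Metric Filter Topology Real
open scoped ContDiff

noncomputable section

namespace Pool.Agent.W878.KG

open Pool.Agent.W787.KG

theorem gauss_int {τ : ℝ} (hτ : 0 < τ) : Integrable (fun z : E => Real.exp (-‖z‖ ^ 2 / (4 * τ))) := by
  have hb : 0 < ((1 / (4 * τ) : ℝ) : ℂ).re := by rw [Complex.ofReal_re]; positivity
  have h := (GaussianFourier.integrable_cexp_neg_mul_sq_norm_add (V := E) hb 0 0).norm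
  refine h.congr (Eventually.of_forall fun z => ?_)
  simp only
  rw [Complex.norm_exp]
  congr 1
  rw [zero_mul, add_zero]
  have : (-((1 / (4 * τ) : ℝ) : ℂ) * (‖z‖ : ℂ) ^ 2) = ((-‖z‖ ^ 2 / (4 * τ) : ℝ) : ℂ) := by
    push_cast; ring
  rw [this, Complex.ofReal_re]

theorem gauss_lin {τ : ℝ} (hτ : 0 < τ) :
    Integrable (fun z : E => ‖z‖ * Real.exp (-‖z‖ ^ 2 / (4 * τ))) := by
  have h2τ : 0 < 2 * τ := by linarith
  refine ((gauss_int h2τ).const_mul (1 + 8 * τ)).mono' ?_ (Eventually.of_forall fun z => ?_)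
  · exact (by fun_prop : Continuous fun z : E => ‖z‖ * Real.exp (-‖z‖ ^ 2 / (4 * τ))).aestronglyMeasurable
  · rw [Real.norm_of_nonneg (by positivity)]
    have e1 : Real.exp (-‖z‖ ^ 2 / (4 * τ)) =
        Real.exp (-‖z‖ ^ 2 / (4 * (2 * τ))) * Real.exp (-‖z‖ ^ 2 / (4 * (2 * τ))) := by
      rw [← Real.exp_add]; congr 1; field_simp; ring
    have e2 : Real.exp (-‖z‖ ^ 2 / (4 * (2 * τ))) * Real.exp (‖z‖ ^ 2 / (8 * τ)) = 1 := by
      rw [← Real.exp_add, ← Real.exp_zero]; congr 1; field_simp; ring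
    have h3 : ‖z‖ ≤ (1 + 8 * τ) * Real.exp (‖z‖ ^ 2 / (8 * τ)) := by
      have h4 : ‖z‖ ^ 2 / (8 * τ) + 1 ≤ Real.exp (‖z‖ ^ 2 / (8 * τ)) := Real.add_one_le_exp _
      have h5 : ‖z‖ ≤ 1 + ‖z‖ ^ 2 := by nlinarith [norm_nonneg z, sq_nonneg (‖z‖ - 1)]
      have h6 : (1 + 8 * τ) * (‖z‖ ^ 2 / (8 * τ) + 1) =
          ‖z‖ ^ 2 / (8 * τ) + 1 + ‖z‖ ^ 2 + 8 * τ := by field_simp; ring
      have h7 : (1 + 8 * τ) * (‖z‖ ^ 2 / (8 * τ) + 1) ≤
          (1 + 8 * τ) * Real.exp (‖z‖ ^ 2 / (8 * τ)) :=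
        mul_le_mul_of_nonneg_left h4 (by positivity)
      have h8 : 0 ≤ ‖z‖ ^ 2 / (8 * τ) := by positivity
      linarith
    calc ‖z‖ * Real.exp (-‖z‖ ^ 2 / (4 * τ))
        = ‖z‖ * Real.exp (-‖z‖ ^ 2 / (4 * (2 * τ))) * Real.exp (-‖z‖ ^ 2 / (4 * (2 * τ))) := by
          rw [e1]; ring
      _ ≤ (1 + 8 * τ) * Real.exp (‖z‖ ^ 2 / (8 * τ)) * Real.exp (-‖z‖ ^ 2 / (4 * (2 * τ))) *
          Real.exp (-‖z‖ ^ 2 / (4 * (2 * τ))) := by
          gcongr
      _ = (1 + 8 * τ) * (Real.exp (-‖z‖ ^ 2 / (4 * (2 * τ))) * Real.exp (‖z‖ ^ 2 / (8 * τ))) *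
          Real.exp (-‖z‖ ^ 2 / (4 * (2 * τ))) := by ring
      _ = _ := by rw [e2, mul_one]

theorem GK_int {τ : ℝ} (hτ : 0 < τ) : Integrable (GK τ) := (gauss_int hτ).const_mul _

theorem GK_cont (τ : ℝ) : Continuous (GK τ) := by
  unfold GK; fun_prop

theorem A0_int {τ : ℝ} (hτ : 0 < τ) (v : E) :
    Integrable (fun z : E => (inner ℝ z v : ℝ) / (2 * τ) * GK τ z) := by
  refine ((gauss_lin hτ).const_mul (‖v‖ / (2 * τ) * (1 / Real.sqrt (4 * π * τ)) ^ 3)).mono' ?_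
    (Eventually.of_forall fun z => ?_)
  · have h1 := GK_cont τ
    exact (by fun_prop : Continuous fun z : E => (inner ℝ z v : ℝ) / (2 * τ) * GK τ z).aestronglyMeasurable
  · have h1 : |(inner ℝ z v : ℝ)| ≤ ‖z‖ * ‖v‖ := abs_real_inner_le_norm z v
    have h2 : 0 ≤ GK τ z := by unfold GK; positivity
    rw [Real.norm_eq_abs, abs_mul, abs_div, abs_of_nonneg h2, abs_of_pos (by linarith : 0 < 2 * τ)]
    calc |(inner ℝ z v : ℝ)| / (2 * τ) * GK τ z ≤ (‖z‖ * ‖v‖) / (2 * τ) * GK τ z := by gcongr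
      _ = ‖v‖ / (2 * τ) * (1 / Real.sqrt (4 * π * τ)) ^ 3 *
          (‖z‖ * Real.exp (-‖z‖ ^ 2 / (4 * τ))) := by unfold GK; ring

theorem gauss_cexp {τ : ℝ} (hτ : 0 < τ) (ξ : E) :
    Integrable (fun z : E => Complex.exp (Complex.I * (inner ℝ ξ z : ℝ)) * (GK τ z : ℂ)) ∧
    ∫ z : E, Complex.exp (Complex.I * (inner ℝ ξ z : ℝ)) * (GK τ z : ℂ)
      = (Real.exp (-τ * ‖ξ‖ ^ 2) : ℂ) := by
  set b : ℂ := ((1 / (4 * τ) : ℝ) : ℂ) with hb'
  have hb : 0 < b.re := by rw [hb', Complex.ofReal_re]; positivity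
  set c0 : ℝ := (1 / Real.sqrt (4 * π * τ)) ^ 3 with hc0
  have e1 : (fun z : E => Complex.exp (Complex.I * (inner ℝ ξ z : ℝ)) * (GK τ z : ℂ)) =
      fun z : E => (c0 : ℂ) * Complex.exp (-b * (‖z‖ : ℂ) ^ 2 + Complex.I * (inner ℝ ξ z : ℝ)) := by
    funext z
    unfold GK
    rw [← hc0, Complex.exp_add, Complex.ofReal_mul, Complex.ofReal_exp]
    have : -b * (‖z‖ : ℂ) ^ 2 = ((-‖z‖ ^ 2 / (4 * τ) : ℝ) : ℂ) := by
      rw [hb']; push_cast; ring
    rw [this]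
    ring
  rw [e1]
  refine ⟨(GaussianFourier.integrable_cexp_neg_mul_sq_norm_add (V := E) hb Complex.I ξ).const_mul _,
    ?_⟩
  rw [integral_const_mul, GaussianFourier.integral_cexp_neg_mul_sq_norm_add (V := E) hb Complex.I ξ]
  have hfr : (Module.finrank ℝ E : ℂ) = 3 := by
    rw [finrank_euclideanSpace_fin]; norm_num
  rw [hfr]
  have hbb : (π : ℂ) / b = ((4 * π * τ : ℝ) : ℂ) := by
    rw [hb']; push_cast; field_simp
  have hpos : 0 < 4 * π * τ := by positivity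
  have e2 : ((π : ℂ) / b) ^ ((3 : ℂ) / 2) = ((Real.sqrt (4 * π * τ) ^ 3 : ℝ) : ℂ) := by
    rw [hbb]
    have : ((3 : ℂ) / 2) = ((3 / 2 : ℝ) : ℂ) := by push_cast; ring
    rw [this, ← Complex.ofReal_cpow hpos.le]
    congr 1
    rw [Real.sqrt_eq_rpow, ← Real.rpow_natCast, ← Real.rpow_mul hpos.le]
    norm_num
  rw [e2]
  have e3 : Complex.I ^ 2 * (‖ξ‖ : ℂ) ^ 2 / (4 * b) = ((-τ * ‖ξ‖ ^ 2 : ℝ) : ℂ) := by
    rw [hb', Complex.I_sq]; push_cast; field_simp
  rw [e3, ← Complex.ofReal_exp, ← mul_assoc, ← Complex.ofReal_mul]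
  have hs : Real.sqrt (4 * π * τ) ≠ 0 := (Real.sqrt_pos.2 hpos).ne'
  have e4 : c0 * Real.sqrt (4 * π * τ) ^ 3 = 1 := by
    rw [hc0, ← mul_pow, one_div, inv_mul_cancel₀ hs, one_pow]
  rw [e4, Complex.ofReal_one, one_mul]

theorem sin_int {τ : ℝ} (hτ : 0 < τ) (ξ x : E) :
    ∫ y : E, Real.sin (inner ℝ ξ y) * GK τ (x - y)
      = Real.sin (inner ℝ ξ x) * Real.exp (-τ * ‖ξ‖ ^ 2) := by
  have h1 : ∫ y : E, Real.sin (inner ℝ ξ y) * GK τ (x - y)
      = ∫ z : E, Real.sin (inner ℝ ξ (x - z)) * GK τ z := by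
    rw [← integral_sub_left_eq_self (fun z : E => Real.sin (inner ℝ ξ (x - z)) * GK τ z) volume x]
    refine integral_congr_ae (Eventually.of_forall fun y => ?_)
    simp only [sub_sub_cancel]
  rw [h1]
  obtain ⟨hi, he⟩ := gauss_cexp hτ (-ξ)
  have hi2 := hi.const_mul (Complex.exp (Complex.I * (inner ℝ ξ x : ℝ)))
  have h2 := integral_im hi2
  have h3 : ∀ z : E, RCLike.im (Complex.exp (Complex.I * (inner ℝ ξ x : ℝ)) *
      (Complex.exp (Complex.I * (inner ℝ (-ξ) z : ℝ)) * (GK τ z : ℂ))) =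
      Real.sin (inner ℝ ξ (x - z)) * GK τ z := by
    intro z
    rw [← mul_assoc, ← Complex.exp_add]
    have : Complex.I * ((inner ℝ ξ x : ℝ) : ℂ) + Complex.I * ((inner ℝ (-ξ) z : ℝ) : ℂ) =
        ((inner ℝ ξ (x - z) : ℝ) : ℂ) * Complex.I := by
      rw [inner_neg_left, inner_sub_right]; push_cast; ring
    rw [this]
    show (Complex.exp (((inner ℝ ξ (x - z) : ℝ) : ℂ) * Complex.I) * (GK τ z : ℂ)).im = _
    rw [Complex.im_mul_ofReal, Complex.exp_ofReal_mul_I_im]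
  simp only [h3] at h2
  rw [h2, integral_const_mul, he, norm_neg]
  show (Complex.exp (Complex.I * ((inner ℝ ξ x : ℝ) : ℂ)) * ((Real.exp (-τ * ‖ξ‖ ^ 2) : ℝ) : ℂ)).im = _
  rw [Complex.im_mul_ofReal, mul_comm Complex.I, Complex.exp_ofReal_mul_I_im]

theorem G_deriv {τ : ℝ} (hτ : 0 < τ) (x v y : E) :
    DifferentiableAt ℝ (fun y : E => GK τ (x - y)) y ∧
    fderiv ℝ (fun y : E => GK τ (x - y)) y v = (inner ℝ (x - y) v : ℝ) / (2 * τ) * GK τ (x - y) := by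
  have h1 : HasFDerivAt (fun y : E => x - y) (-ContinuousLinearMap.id ℝ E) y :=
    (hasFDerivAt_id y).const_sub x
  have h2 := h1.norm_sq
  have h3 : HasFDerivAt (fun y : E => -‖x - y‖ ^ 2 / (4 * τ)) _ y := (h2.neg).mul_const (4 * τ)⁻¹
  have h4 := (h3.exp).const_mul ((1 / Real.sqrt (4 * π * τ)) ^ 3)
  have h5 : (fun y : E => GK τ (x - y)) =
      fun y : E => (1 / Real.sqrt (4 * π * τ)) ^ 3 * Real.exp (-‖x - y‖ ^ 2 / (4 * τ)) := rfl
  rw [h5]
  refine ⟨h4.differentiableAt, ?_⟩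
  rw [h4.fderiv]
  simp only [GK, ContinuousLinearMap.smul_apply, ContinuousLinearMap.neg_apply,
    ContinuousLinearMap.comp_apply, ContinuousLinearMap.id_apply, smul_eq_mul, innerSL_apply_apply,
    inner_neg_right]
  field_simp
  ring

theorem F_deriv (ξ v y : E) :
    DifferentiableAt ℝ (fun y : E => Real.cos (inner ℝ ξ y)) y ∧
    fderiv ℝ (fun y : E => Real.cos (inner ℝ ξ y)) y v = -(Real.sin (inner ℝ ξ y) * inner ℝ ξ v) := by
  have h1 : HasFDerivAt (fun y : E => (inner ℝ ξ y : ℝ)) (innerSL ℝ ξ) y :=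
    (innerSL ℝ ξ).hasFDerivAt
  have h2 := h1.cos
  refine ⟨h2.differentiableAt, ?_⟩
  rw [h2.fderiv]
  simp

theorem key {τ : ℝ} (hτ : 0 < τ) (ξ x v : E) :
    ∫ y : E, Real.cos (inner ℝ ξ y) * ((inner ℝ (x - y) v : ℝ) / (2 * τ) * GK τ (x - y))
      = inner ℝ ξ v * Real.sin (inner ℝ ξ x) * Real.exp (-τ * ‖ξ‖ ^ 2) := by
  have hG : Integrable (fun y : E => GK τ (x - y)) := (GK_int hτ).comp_sub_left x
  have hA : Integrable (fun y : E => (inner ℝ (x - y) v : ℝ) / (2 * τ) * GK τ (x - y)) :=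
    (A0_int hτ v).comp_sub_left x
  have hcos : Continuous fun y : E => Real.cos (inner ℝ ξ y) := by fun_prop
  have hsin : Continuous fun y : E => Real.sin (inner ℝ ξ y) := by fun_prop
  have hf : ∀ y, fderiv ℝ (fun y : E => Real.cos (inner ℝ ξ y)) y v =
      -(Real.sin (inner ℝ ξ y) * inner ℝ ξ v) := fun y => (F_deriv ξ v y).2
  have hg : ∀ y, fderiv ℝ (fun y : E => GK τ (x - y)) y v =
      (inner ℝ (x - y) v : ℝ) / (2 * τ) * GK τ (x - y) := fun y => (G_deriv hτ x v y).2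
  have i1 : Integrable (fun y : E => Real.sin (inner ℝ ξ y) * GK τ (x - y)) := by
    refine hG.mono (hsin.aestronglyMeasurable.mul hG.1) (Eventually.of_forall fun y => ?_)
    rw [norm_mul]
    calc ‖Real.sin (inner ℝ ξ y)‖ * ‖GK τ (x - y)‖ ≤ 1 * ‖GK τ (x - y)‖ :=
          mul_le_mul_of_nonneg_right (Real.abs_sin_le_one _) (norm_nonneg _)
      _ = _ := one_mul _
  have i2 : Integrable (fun y : E => Real.cos (inner ℝ ξ y) * GK τ (x - y)) := by
    refine hG.mono (hcos.aestronglyMeasurable.mul hG.1) (Eventually.of_forall fun y => ?_)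
    rw [norm_mul]
    calc ‖Real.cos (inner ℝ ξ y)‖ * ‖GK τ (x - y)‖ ≤ 1 * ‖GK τ (x - y)‖ :=
          mul_le_mul_of_nonneg_right (Real.abs_cos_le_one _) (norm_nonneg _)
      _ = _ := one_mul _
  have i3 : Integrable (fun y : E => Real.cos (inner ℝ ξ y) *
      ((inner ℝ (x - y) v : ℝ) / (2 * τ) * GK τ (x - y))) := by
    refine hA.mono (hcos.aestronglyMeasurable.mul hA.1) (Eventually.of_forall fun y => ?_)
    rw [norm_mul]
    calc ‖Real.cos (inner ℝ ξ y)‖ * ‖(inner ℝ (x - y) v : ℝ) / (2 * τ) * GK τ (x - y)‖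
        ≤ 1 * ‖(inner ℝ (x - y) v : ℝ) / (2 * τ) * GK τ (x - y)‖ :=
          mul_le_mul_of_nonneg_right (Real.abs_cos_le_one _) (norm_nonneg _)
      _ = _ := one_mul _
  have h := integral_mul_fderiv_eq_neg_fderiv_mul_of_integrable (μ := (volume : Measure E))
    (f := fun y : E => Real.cos (inner ℝ ξ y)) (g := fun y : E => GK τ (x - y)) (v := v)
    (by
      simp only [hf]
      refine (i1.const_mul (-(inner ℝ ξ v : ℝ))).congr (Eventually.of_forall fun y => ?_)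
      simp only; ring)
    (by simp only [hg]; exact i3) i2 (fun y _ => (F_deriv ξ v y).1)
    (fun y _ => (G_deriv hτ x v y).1)
  simp only [hf, hg] at h
  rw [h]
  have h4 : (fun y : E => -(Real.sin (inner ℝ ξ y) * (inner ℝ ξ v : ℝ)) * GK τ (x - y)) =
      fun y : E => (-(inner ℝ ξ v : ℝ)) * (Real.sin (inner ℝ ξ y) * GK τ (x - y)) := by
    funext y; ring
  rw [h4, integral_const_mul, sin_int hτ]
  ring

theorem gk (h2 : S_WI) : S_GK := by
  intro f K hf hK τ x v hτ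
  have hfi : Integrable f := by
    refine ((h2 6 (by norm_num)).1.const_mul K).mono' hf.aestronglyMeasurable
      (Eventually.of_forall fun ξ => ?_)
    rw [Real.norm_eq_abs]; exact hK ξ
  set A : E → ℝ := fun y => (inner ℝ (x - y) v : ℝ) / (2 * τ) * GK τ (x - y) with hA'
  have hA : Integrable A := (A0_int hτ v).comp_sub_left x
  have hprod : Integrable (fun p : E × E => Real.cos (inner ℝ p.2 p.1) * f p.2 * A p.1)
      (volume.prod volume) := by
    have h1 : Integrable (fun p : E × E => A p.1 * f p.2) (volume.prod volume) :=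
      hA.mul_prod hfi
    have hc : Continuous fun p : E × E => Real.cos (inner ℝ p.2 p.1) := by fun_prop
    have e1 : (fun p : E × E => Real.cos (inner ℝ p.2 p.1) * f p.2 * A p.1) =
        fun p : E × E => Real.cos (inner ℝ p.2 p.1) * (A p.1 * f p.2) := by
      funext p; ring
    rw [e1]
    refine h1.mono (hc.aestronglyMeasurable.mul h1.1) (Eventually.of_forall fun p => ?_)
    rw [norm_mul]
    calc ‖Real.cos (inner ℝ p.2 p.1)‖ * ‖A p.1 * f p.2‖ ≤ 1 * ‖A p.1 * f p.2‖ :=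
          mul_le_mul_of_nonneg_right (Real.abs_cos_le_one _) (norm_nonneg _)
      _ = _ := one_mul _
  have e2 : ∀ y : E, CT f y * ((inner ℝ (x - y) v : ℝ) / (2 * τ)) * GK τ (x - y) =
      ∫ ξ : E, Real.cos (inner ℝ ξ y) * f ξ * A y := by
    intro y
    rw [integral_mul_const]
    show CT f y * ((inner ℝ (x - y) v : ℝ) / (2 * τ)) * GK τ (x - y) = CT f y * A y
    rw [hA']; ring
  simp only [e2]
  rw [integral_integral_swap hprod]
  refine integral_congr_ae (Eventually.of_forall fun ξ => ?_)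
  show ∫ y : E, Real.cos (inner ℝ ξ y) * f ξ * A y = _
  have e3 : (fun y : E => Real.cos (inner ℝ ξ y) * f ξ * A y) =
      fun y : E => f ξ * (Real.cos (inner ℝ ξ y) * A y) := by
    funext y; ring
  rw [e3, integral_const_mul, key hτ ξ x v]
  ring

end Pool.Agent.W878.KG
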